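import Pool.Agent.W209.KT.Stm

set_option autoImplicit false

namespace Pool.Agent.W61.KT

open Pool.Agent.W209.KT

theorem pig : S_pig := by
  intro s p hp x m Q hm hQ
  have hne : ∀ j, NeZero (p j) := fun j => ⟨(hp j).ne'⟩
  have hmR : (0 : ℝ) < m := by exact_mod_cast hm
  let fl : ℕ → Fin 10 → ℤ := fun q l => ⌊(q : ℝ) * x l⌋
  let c : ℕ → Fin 10 → Fin m := fun q l => ⟨⌊(m : ℝ) * Int.fract ((q : ℝ) * x l)⌋₊, by
    rw [Nat.floor_lt (mul_nonneg hmR.le (Int.fract_nonneg _))]
    nlinarith [Int.fract_lt_one ((q : ℝ) * x l)]⟩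
  let r : ℕ → (j : Fin 2) → ZMod (p j) := fun q j =>
    ((s j 0 * (q : ℤ) + ∑ l : Fin 10, s j l.succ * fl q l : ℤ) : ZMod (p j))
  have key : ∀ a b : ℕ, a < b → b ≤ Q → c a = c b → r a = r b →
      ∃ (q : ℕ) (y : Fin 10 → ℤ), 0 < q ∧ q ≤ Q ∧ (∀ l, |(q : ℝ) * x l - y l| < 1 / m) ∧
        ∀ j, (p j : ℤ) ∣ s j 0 * q + ∑ l : Fin 10, s j l.succ * y l := by
    intro a b hab hb hc hr
    refine ⟨b - a, fun l => fl b l - fl a l, by omega, by omega, ?_, ?_⟩
    · intro l
      have h1 : ⌊(m : ℝ) * Int.fract ((a : ℝ) * x l)⌋₊ =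
          ⌊(m : ℝ) * Int.fract ((b : ℝ) * x l)⌋₊ := by
        have := congrFun hc l
        exact Fin.mk.inj_iff.mp this
      have ha1 := Nat.floor_le (mul_nonneg hmR.le (Int.fract_nonneg ((a : ℝ) * x l)))
      have ha2 := Nat.lt_floor_add_one ((m : ℝ) * Int.fract ((a : ℝ) * x l))
      have hb1 := Nat.floor_le (mul_nonneg hmR.le (Int.fract_nonneg ((b : ℝ) * x l)))
      have hb2 := Nat.lt_floor_add_one ((m : ℝ) * Int.fract ((b : ℝ) * x l))
      rw [h1] at ha1 ha2
      have e : ((b - a : ℕ) : ℝ) * x l - ((fl b l - fl a l : ℤ) : ℝ) =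
          Int.fract ((b : ℝ) * x l) - Int.fract ((a : ℝ) * x l) := by
        rw [Nat.cast_sub hab.le]
        simp only [fl, Int.fract]
        push_cast
        ring
      rw [e, abs_lt]
      constructor
      · rw [← sub_pos]
        have : 0 < m * (Int.fract ((b : ℝ) * x l) - Int.fract ((a : ℝ) * x l)) + 1 := by linarith
        have h2 : Int.fract ((b : ℝ) * x l) - Int.fract ((a : ℝ) * x l) - -(1 / (m : ℝ)) =
            (m * (Int.fract ((b : ℝ) * x l) - Int.fract ((a : ℝ) * x l)) + 1) / m := by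
          field_simp
          ring
        rw [h2]
        exact div_pos this hmR
      · rw [lt_div_iff₀ hmR]
        linarith
    · intro j
      have h1 := congrFun hr j
      simp only [r] at h1
      rw [ZMod.intCast_eq_intCast_iff_dvd_sub] at h1
      have e : s j 0 * ((b - a : ℕ) : ℤ) + ∑ l : Fin 10, s j l.succ * (fl b l - fl a l) =
          (s j 0 * (b : ℤ) + ∑ l : Fin 10, s j l.succ * fl b l) -
          (s j 0 * (a : ℤ) + ∑ l : Fin 10, s j l.succ * fl a l) := by
        rw [Nat.cast_sub hab.le]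
        simp only [mul_sub, Finset.sum_sub_distrib]
        ring
      rw [e]
      exact h1
  have hcard : Fintype.card ((Fin 10 → Fin m) × ((j : Fin 2) → ZMod (p j))) <
      Fintype.card (Fin (Q + 1)) := by
    rw [Fintype.card_prod, Fintype.card_fun, Fintype.card_fin, Fintype.card_fin, Fintype.card_pi,
      Fin.prod_univ_two, ZMod.card, ZMod.card, Fintype.card_fin]
    omega
  obtain ⟨a, b, hab, hf⟩ := Fintype.exists_ne_map_eq_of_card_lt
    (fun q : Fin (Q + 1) => ((c q.1, r q.1) : (Fin 10 → Fin m) × ((j : Fin 2) → ZMod (p j)))) hcard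
  have h1 : c a.1 = c b.1 := congrArg Prod.fst hf
  have h2 : r a.1 = r b.1 := congrArg Prod.snd hf
  have hne' : a.1 ≠ b.1 := fun h => hab (Fin.ext h)
  rcases lt_or_gt_of_ne hne' with h | h
  · exact key a.1 b.1 h (by have := b.2; omega) h1 h2
  · exact key b.1 a.1 h (by have := a.2; omega) h1.symm h2.symm

end Pool.Agent.W61.KT
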